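import Pool.Agent.E8helper27.CB.Stm

/-! MATCH: cones over graphs with all degrees at most one. -/

set_option autoImplicit false
set_option linter.unusedSectionVars false

namespace Pool.Agent.E8helper79.CB

open Finset
open E8h27.CB

section gen
variable {I : Type} [Fintype I]

/-- the bilinear form of a matrix -/
noncomputable def bf (A : I → I → ℝ) (x y : I → ℝ) : ℝ := ∑ i, ∑ j, x i * A i j * y j

theorem bf_add_left (A : I → I → ℝ) (x x' y : I → ℝ) :
    bf A (x + x') y = bf A x y + bf A x' y := by
  unfold bf
  rw [← Finset.sum_add_distrib]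
  refine Finset.sum_congr rfl fun i _ => ?_
  rw [← Finset.sum_add_distrib]
  exact Finset.sum_congr rfl fun j _ => by rw [Pi.add_apply]; ring

theorem bf_smul_left (A : I → I → ℝ) (c : ℝ) (x y : I → ℝ) :
    bf A (c • x) y = c * bf A x y := by
  unfold bf
  rw [Finset.mul_sum]
  refine Finset.sum_congr rfl fun i _ => ?_
  rw [Finset.mul_sum]
  exact Finset.sum_congr rfl fun j _ => by rw [Pi.smul_apply, smul_eq_mul]; ring

theorem bf_comm {A : I → I → ℝ} (h : ∀ i j, A i j = A j i) (x y : I → ℝ) :
    bf A x y = bf A y x := by
  unfold bf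
  rw [Finset.sum_comm]
  exact Finset.sum_congr rfl fun i _ => Finset.sum_congr rfl fun j _ => by rw [h j i]; ring

theorem bf_expand {A : I → I → ℝ} (h : ∀ i j, A i j = A j i) (c : ℝ) (e p q : I → ℝ)
    (h0 : bf A p q = 0) : bf A (c • e + p + q) (c • e + p + q) =
      c ^ 2 * bf A e e + 2 * c * bf A e p + 2 * c * bf A e q + bf A p p + bf A q q := by
  have h1 : bf A p e = bf A e p := bf_comm h _ _
  have h2 : bf A q e = bf A e q := bf_comm h _ _
  have h3 : bf A q p = 0 := by rw [bf_comm h, h0]
  have hr : ∀ x, bf A x (c • e + p + q) = c * bf A x e + bf A x p + bf A x q := by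
    intro x
    rw [bf_comm h, bf_add_left, bf_add_left, bf_smul_left, bf_comm h e x, bf_comm h p x,
      bf_comm h q x]
  rw [hr, bf_add_left, bf_add_left, bf_smul_left, bf_add_left, bf_add_left, bf_smul_left,
    bf_add_left, bf_add_left, bf_smul_left, h0, h1, h2, h3]
  ring

theorem psd_restrict {M : I → I → ℝ} (h : Psd M) (T : Finset I) :
    Psd (fun i j : T => M i j) := by
  classical
  refine ⟨fun i j => h.1 i j, fun x => ?_⟩
  set y : I → ℝ := fun i => if h : i ∈ T then x ⟨i, h⟩ else 0 with hy
  have hy1 : ∀ i : T, x i = y i := fun i => by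
    rw [hy]
    simp only [i.2, dite_true]
  have hy0 : ∀ i, i ∉ T → y i = 0 := fun i hi => by
    rw [hy]
    simp only [hi, dite_false]
  have h1 : ∑ i : T, ∑ j : T, x i * M i j * x j = ∑ i, ∑ j, y i * M i j * y j := by
    have h2 : ∀ i : T, ∑ j : T, x i * M i j * x j = ∑ j, y i * M i j * y j := by
      intro i
      have h3 : ∑ j : T, x i * M i j * x j = ∑ j : T, y i * M i j * y j :=
        Finset.sum_congr rfl fun j _ => by rw [hy1 i, hy1 j]
      rw [h3, Finset.sum_coe_sort T (fun j => y i * M i j * y j)]
      exact Finset.sum_subset (Finset.subset_univ _) fun j _ hj => by rw [hy0 j hj, mul_zero]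
    rw [Finset.sum_congr rfl fun i _ => h2 i,
      Finset.sum_coe_sort T (fun i => ∑ j, y i * M i j * y j)]
    refine Finset.sum_subset (Finset.subset_univ _) fun i _ hi => ?_
    exact Finset.sum_eq_zero fun j _ => by rw [hy0 i hi, zero_mul, zero_mul]
  show 0 ≤ ∑ i : T, ∑ j : T, x i * M i j * x j
  rw [h1]
  exact h.2 y

theorem psd_extend {M : I → I → ℝ} (T : Finset I) (h : Psd (fun i j : T => M i j))
    (h1 : ∀ i j, i ∉ T → M i j = 0) (h2 : ∀ i j, j ∉ T → M i j = 0) (x : I → ℝ) :
    0 ≤ ∑ i, ∑ j, x i * M i j * x j := by
  have h3 : ∑ i, ∑ j, x i * M i j * x j = ∑ i : T, ∑ j : T, x i * M i j * x j := by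
    have h4 : ∀ i, ∑ j, x i * M i j * x j = ∑ j : T, x i * M i j * x j := by
      intro i
      rw [Finset.sum_coe_sort T (fun j => x i * M i j * x j)]
      exact (Finset.sum_subset (Finset.subset_univ _) fun j _ hj => by
        rw [h2 i j hj, mul_zero, zero_mul]).symm
    rw [Finset.sum_congr rfl fun i _ => h4 i,
      Finset.sum_coe_sort T (fun i => ∑ j : T, x i * M i j * x j)]
    refine (Finset.sum_subset (Finset.subset_univ _) fun i _ hi => ?_).symm
    exact Finset.sum_eq_zero fun j _ => by rw [h1 i j hi, mul_zero, zero_mul]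
  rw [h3]
  exact h.2 fun i => x i

end gen

section opt
variable {V : Type} [Fintype V]

/-- the vector of the new vertex -/
def e0 : Option V → ℝ
  | none => 1
  | some _ => 0

/-- the part of the matrix on the new vertex and on the support of `k` -/
def comb (A : Option V → Option V → ℝ) (β : ℝ) (k : V → ℝ) : Option V → Option V → ℝ
  | none, none => β
  | none, some v => A none (some v) * k v
  | some u, none => k u * A (some u) none
  | some u, some v => k u * A (some u) (some v) * k v

/-- the part of a vector -/
def part (k : V → ℝ) (x : Option V → ℝ) : Option V → ℝ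
  | none => 0
  | some v => k v * x (some v)

theorem comb_form {A : Option V → Option V → ℝ} (h : ∀ i j, A i j = A j i) (β : ℝ) (k : V → ℝ)
    (x : Option V → ℝ) : bf (comb A β k) x x =
      β * x none ^ 2 + 2 * x none * bf A e0 (part k x) + bf A (part k x) (part k x) := by
  have h1 : bf A e0 (part k x) = ∑ v, A none (some v) * (k v * x (some v)) := by
    unfold bf
    rw [Fintype.sum_option, Fintype.sum_option]
    have : ∑ u : V, ∑ j, (e0 (some u) : ℝ) * A (some u) j * part k x j = 0 :=
      Finset.sum_eq_zero fun u _ => Finset.sum_eq_zero fun j _ => by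
        show 0 * _ * _ = (0 : ℝ)
        rw [zero_mul, zero_mul]
    rw [this, add_zero]
    show (1 : ℝ) * A none none * 0 + _ = _
    rw [mul_zero, zero_add]
    exact Finset.sum_congr rfl fun v _ => by
      show (1 : ℝ) * A none (some v) * (k v * x (some v)) = _
      rw [one_mul]
  have h2 : bf A (part k x) (part k x) = ∑ u, ∑ v, (k u * x (some u)) * A (some u) (some v) *
      (k v * x (some v)) := by
    unfold bf
    rw [Fintype.sum_option]
    have : ∑ j, part k x none * A none j * part k x j = 0 :=
      Finset.sum_eq_zero fun j _ => by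
        show 0 * _ * _ = (0 : ℝ)
        rw [zero_mul, zero_mul]
    rw [this, zero_add]
    refine Finset.sum_congr rfl fun u _ => ?_
    rw [Fintype.sum_option]
    show _ * _ * (0 : ℝ) + _ = _
    rw [mul_zero, zero_add]
    rfl
  rw [h1, h2]
  unfold bf
  rw [Fintype.sum_option, Fintype.sum_option]
  have h3 : ∑ u : V, ∑ j, x (some u) * comb A β k (some u) j * x j =
      ∑ v, x none * (A none (some v) * (k v * x (some v))) +
      ∑ u, ∑ v, (k u * x (some u)) * A (some u) (some v) * (k v * x (some v)) := by
    rw [← Finset.sum_add_distrib]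
    refine Finset.sum_congr rfl fun u _ => ?_
    rw [Fintype.sum_option]
    show x (some u) * (k u * A (some u) none) * x none +
      ∑ v, x (some u) * (k u * A (some u) (some v) * k v) * x (some v) = _
    rw [h (some u) none]
    congr 1
    · ring
    · exact Finset.sum_congr rfl fun v _ => by ring
  rw [h3]
  have h4 : ∑ v, x none * comb A β k none (some v) * x (some v) =
      ∑ v, x none * (A none (some v) * (k v * x (some v))) :=
    Finset.sum_congr rfl fun v _ => by
      show x none * (A none (some v) * k v) * x (some v) = _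
      ring
  rw [h4, ← Finset.mul_sum]
  show x none * β * x none + _ + _ = _
  ring

/-- the indicator -/
noncomputable def ind (K : Finset V) (v : V) : ℝ := by
  classical exact if v ∈ K then 1 else 0

theorem ind_pos {K : Finset V} {v : V} (h : v ∈ K) : ind K v = 1 := by
  unfold ind
  rw [if_pos h]

theorem ind_neg {K : Finset V} {v : V} (h : v ∉ K) : ind K v = 0 := by
  unfold ind
  rw [if_neg h]

/-- the indicator of the complement -/
noncomputable def ind' (K : Finset V) (v : V) : ℝ := 1 - ind K v

theorem e0_form (A : Option V → Option V → ℝ) : bf A e0 e0 = A none none := by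
  unfold bf
  rw [Fintype.sum_option, Fintype.sum_option]
  have h1 : ∑ v : V, e0 (none : Option V) * A none (some v) * e0 (some v) = 0 :=
    Finset.sum_eq_zero fun v _ => by
      show _ * (0 : ℝ) = 0
      rw [mul_zero]
  have h2 : ∑ u : V, ∑ j, (e0 (some u) : ℝ) * A (some u) j * e0 j = 0 :=
    Finset.sum_eq_zero fun u _ => Finset.sum_eq_zero fun j _ => by
      show 0 * _ * _ = (0 : ℝ)
      rw [zero_mul, zero_mul]
  rw [h1, h2, add_zero, add_zero]
  show (1 : ℝ) * A none none * 1 = _
  ring

theorem part_smul (k : V → ℝ) (c : ℝ) (x : Option V → ℝ) : part k (c • x) = c • part k x := by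
  funext i
  cases i with
  | none => show (0 : ℝ) = c * 0; rw [mul_zero]
  | some v => show k v * (c * x (some v)) = c * (k v * x (some v)); ring

/-- **The splitting.** -/
theorem split {A : Option V → Option V → ℝ} (hA : Psd A) (K : Finset V)
    (hK : ∀ u ∈ K, ∀ w, w ∉ K → A (some u) (some w) = 0) :
    ∃ α : ℝ, 0 ≤ α ∧ α ≤ A none none ∧
      (∀ x, 0 ≤ bf (comb A α (ind K)) x x) ∧
      (∀ x, 0 ≤ bf (comb A (A none none - α) (ind' K)) x x) := by
  have hpq : ∀ x y, bf A (part (ind K) x) (part (ind' K) y) = 0 := by
    intro x y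
    unfold bf
    refine Finset.sum_eq_zero fun i _ => Finset.sum_eq_zero fun j _ => ?_
    rcases i with _ | u
    · show 0 * _ * _ = (0 : ℝ)
      rw [zero_mul, zero_mul]
    · rcases j with _ | w
      · show _ * (0 : ℝ) = 0
        rw [mul_zero]
      · show (ind K u * x (some u)) * A (some u) (some w) * (ind' K w * y (some w)) = 0
        by_cases hu : u ∈ K
        · by_cases hw : w ∈ K
          · unfold ind'
            rw [ind_pos hw]
            ring
          · rw [hK u hu w hw]
            ring
        · rw [ind_neg hu]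
          ring
  set F : (Option V → ℝ) → ℝ := fun y =>
    -bf A (part (ind K) y) (part (ind K) y) - 2 * bf A e0 (part (ind K) y) with hF
  have hQ : ∀ (c : ℝ) (y z : Option V → ℝ), 0 ≤ c ^ 2 * A none none +
      2 * c * bf A e0 (part (ind K) y) + 2 * c * bf A e0 (part (ind' K) z) +
      bf A (part (ind K) y) (part (ind K) y) + bf A (part (ind' K) z) (part (ind' K) z) := by
    intro c y z
    have h1 := hA.2 (c • e0 + part (ind K) y + part (ind' K) z)
    have h2 := bf_expand hA.1 c e0 (part (ind K) y) (part (ind' K) z) (hpq y z)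
    rw [e0_form] at h2
    rw [← h2]
    exact h1
  have hz : ∀ k : V → ℝ, part k (0 : Option V → ℝ) = 0 := by
    intro k
    have := part_smul k 0 0
    rw [zero_smul, zero_smul] at this
    exact this
  have hb0 : ∀ x, bf A x 0 = 0 := by
    intro x
    unfold bf
    exact Finset.sum_eq_zero fun i _ => Finset.sum_eq_zero fun j _ => by
      rw [Pi.zero_apply, mul_zero]
  have hbd : ∀ y, F y ≤ A none none := by
    intro y
    have h1 := hQ 1 y 0
    rw [hz, hb0, hb0] at h1
    rw [hF]
    simp only
    linarith
  have hbdd : BddAbove (Set.range F) := ⟨A none none, by rintro _ ⟨y, rfl⟩; exact hbd y⟩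
  have hne : (Set.range F).Nonempty := ⟨F 0, 0, rfl⟩
  refine ⟨sSup (Set.range F), ?_, csSup_le hne (by rintro _ ⟨y, rfl⟩; exact hbd y), ?_, ?_⟩
  · have h1 : F 0 = 0 := by
      rw [hF]
      simp only
      rw [hz, hb0, hb0]
      ring
    rw [← h1]
    exact le_csSup hbdd ⟨0, rfl⟩
  · intro x
    rw [comb_form hA.1]
    rcases eq_or_ne (x none) 0 with h0 | h0
    · rw [h0]
      have h1 := hQ 0 x 0
      rw [hz, hb0, hb0] at h1
      linarith
    · have h1 : F ((x none)⁻¹ • x) ≤ sSup (Set.range F) := le_csSup hbdd ⟨_, rfl⟩
      rw [hF] at h1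
      simp only at h1
      have h2 : bf A (part (ind K) ((x none)⁻¹ • x)) (part (ind K) ((x none)⁻¹ • x)) =
          (x none)⁻¹ ^ 2 * bf A (part (ind K) x) (part (ind K) x) := by
        rw [part_smul, bf_smul_left, bf_comm hA.1, bf_smul_left]
        ring
      have h3 : bf A e0 (part (ind K) ((x none)⁻¹ • x)) =
          (x none)⁻¹ * bf A e0 (part (ind K) x) := by
        rw [part_smul, bf_comm hA.1, bf_smul_left, bf_comm hA.1]
      rw [h2, h3] at h1
      have h4 := mul_le_mul_of_nonneg_right h1 (sq_nonneg (x none))
      have h5 : (-((x none)⁻¹ ^ 2 * bf A (part (ind K) x) (part (ind K) x)) -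
          2 * ((x none)⁻¹ * bf A e0 (part (ind K) x))) * x none ^ 2 =
          -bf A (part (ind K) x) (part (ind K) x) - 2 * x none * bf A e0 (part (ind K) x) := by
        field_simp
      rw [h5] at h4
      linarith
  · intro x
    rw [comb_form hA.1]
    rcases eq_or_ne (x none) 0 with h0 | h0
    · rw [h0]
      have h1 := hQ 0 0 x
      rw [hz, hb0, hb0] at h1
      linarith
    · have h1 : sSup (Set.range F) ≤ A none none +
          2 * (x none)⁻¹ * bf A e0 (part (ind' K) x) +
          (x none)⁻¹ ^ 2 * bf A (part (ind' K) x) (part (ind' K) x) := by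
        refine csSup_le hne ?_
        rintro _ ⟨y, rfl⟩
        have h2 := hQ 1 y ((x none)⁻¹ • x)
        have h3 : bf A (part (ind' K) ((x none)⁻¹ • x)) (part (ind' K) ((x none)⁻¹ • x)) =
            (x none)⁻¹ ^ 2 * bf A (part (ind' K) x) (part (ind' K) x) := by
          rw [part_smul, bf_smul_left, bf_comm hA.1, bf_smul_left]
          ring
        have h4 : bf A e0 (part (ind' K) ((x none)⁻¹ • x)) =
            (x none)⁻¹ * bf A e0 (part (ind' K) x) := by
          rw [part_smul, bf_comm hA.1, bf_smul_left, bf_comm hA.1]
        rw [h3, h4] at h2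
        rw [hF]
        simp only
        linarith
      have h4 := mul_le_mul_of_nonneg_right h1 (sq_nonneg (x none))
      have h5 : (A none none + 2 * (x none)⁻¹ * bf A e0 (part (ind' K) x) +
          (x none)⁻¹ ^ 2 * bf A (part (ind' K) x) (part (ind' K) x)) * x none ^ 2 =
          A none none * x none ^ 2 + 2 * x none * bf A e0 (part (ind' K) x) +
          bf A (part (ind' K) x) (part (ind' K) x) := by
        field_simp
      rw [h5] at h4
      linarith

theorem comb_symm {A : Option V → Option V → ℝ} (h : ∀ i j, A i j = A j i) (β : ℝ) (k : V → ℝ)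
    (i j : Option V) : comb A β k i j = comb A β k j i := by
  rcases i with _ | u <;> rcases j with _ | v
  · rfl
  · show A none (some v) * k v = k v * A (some v) none
    rw [h none (some v), mul_comm]
  · show k u * A (some u) none = A none (some u) * k u
    rw [h none (some u), mul_comm]
  · show k u * A (some u) (some v) * k v = k v * A (some v) (some u) * k u
    rw [h (some v) (some u)]
    ring

theorem comb_nonneg {A : Option V → Option V → ℝ} (h : ∀ i j, 0 ≤ A i j) {β : ℝ} (hβ : 0 ≤ β)
    {k : V → ℝ} (hk : ∀ v, 0 ≤ k v) (i j : Option V) : 0 ≤ comb A β k i j := by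
  rcases i with _ | u <;> rcases j with _ | v
  · exact hβ
  · exact mul_nonneg (h _ _) (hk _)
  · exact mul_nonneg (hk _) (h _ _)
  · exact mul_nonneg (mul_nonneg (hk _) (h _ _)) (hk _)

theorem ind_nonneg (K : Finset V) (v : V) : 0 ≤ ind K v := by
  by_cases h : v ∈ K
  · rw [ind_pos h]; norm_num
  · rw [ind_neg h]

theorem ind'_nonneg (K : Finset V) (v : V) : 0 ≤ ind' K v := by
  unfold ind'
  by_cases h : v ∈ K
  · rw [ind_pos h]; norm_num
  · rw [ind_neg h]; norm_num

/-- the powers of the two parts -/
theorem pow_split {A : Option V → Option V → ℝ} (hA0 : ∀ i j, 0 ≤ A i j)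
    (hAs : ∀ i j, A i j = A j i) {K : Finset V}
    (hK : ∀ u ∈ K, ∀ w, w ∉ K → A (some u) (some w) = 0) {α b : ℝ} (hb : 1 ≤ b)
    (h0 : 0 ≤ α) (h1 : α ≤ A none none) (x : Option V → ℝ) :
    ∑ i, ∑ j, x i * comb A α (ind K) i j ^ b * x j +
      ∑ i, ∑ j, x i * comb A (A none none - α) (ind' K) i j ^ b * x j ≤
      ∑ i, ∑ j, x i * A i j ^ b * x j := by
  have hb0 : b ≠ 0 := by linarith
  have key : ∀ i j, (i, j) ≠ ((none : Option V), (none : Option V)) →
      comb A α (ind K) i j ^ b + comb A (A none none - α) (ind' K) i j ^ b = A i j ^ b := by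
    intro i j hij
    rcases i with _ | u <;> rcases j with _ | v
    · exact absurd rfl hij
    · show (A none (some v) * ind K v) ^ b + (A none (some v) * ind' K v) ^ b = _
      unfold ind'
      by_cases hv : v ∈ K
      · rw [ind_pos hv, sub_self, mul_one, mul_zero, Real.zero_rpow hb0, add_zero]
      · rw [ind_neg hv, sub_zero, mul_one, mul_zero, Real.zero_rpow hb0, zero_add]
    · show (ind K u * A (some u) none) ^ b + (ind' K u * A (some u) none) ^ b = _
      unfold ind'
      by_cases hv : u ∈ K
      · rw [ind_pos hv, sub_self, one_mul, zero_mul, Real.zero_rpow hb0, add_zero]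
      · rw [ind_neg hv, sub_zero, one_mul, zero_mul, Real.zero_rpow hb0, zero_add]
    · show (ind K u * A (some u) (some v) * ind K v) ^ b +
        (ind' K u * A (some u) (some v) * ind' K v) ^ b = _
      unfold ind'
      by_cases hu : u ∈ K
      · by_cases hv : v ∈ K
        · rw [ind_pos hu, ind_pos hv, sub_self, one_mul, mul_one, mul_zero,
            Real.zero_rpow hb0, add_zero]
        · rw [ind_pos hu, ind_neg hv, hK u hu v hv]
          simp only [mul_zero, zero_mul, Real.zero_rpow hb0, add_zero]
      · by_cases hv : v ∈ K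
        · have : A (some u) (some v) = 0 := by rw [hAs]; exact hK v hv u hu
          rw [ind_neg hu, ind_pos hv, this]
          simp only [mul_zero, zero_mul, Real.zero_rpow hb0, add_zero]
        · rw [ind_neg hu, ind_neg hv, sub_zero, one_mul, mul_one, mul_zero,
            Real.zero_rpow hb0, zero_add]
  have key0 : comb A α (ind K) none none ^ b + comb A (A none none - α) (ind' K) none none ^ b ≤
      A none none ^ b := by
    show α ^ b + (A none none - α) ^ b ≤ _
    have := Real.add_rpow_le_rpow_add h0 (sub_nonneg.2 h1) hb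
    rwa [add_sub_cancel] at this
  rw [← Finset.sum_add_distrib]
  refine Finset.sum_le_sum fun i _ => ?_
  rw [← Finset.sum_add_distrib]
  refine Finset.sum_le_sum fun j _ => ?_
  have e : x i * comb A α (ind K) i j ^ b * x j +
      x i * comb A (A none none - α) (ind' K) i j ^ b * x j =
      x i * (comb A α (ind K) i j ^ b + comb A (A none none - α) (ind' K) i j ^ b) * x j := by
    ring
  rw [e]
  by_cases hij : (i, j) = ((none : Option V), (none : Option V))
  · obtain ⟨rfl, rfl⟩ := Prod.mk.inj hij
    have h2 := mul_le_mul_of_nonneg_left key0 (mul_self_nonneg (x none))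
    linarith
  · rw [key i j hij]

end opt

theorem main (hFH : S_FH) {V : Type} [Fintype V] (G : SimpleGraph V)
    (hG : ∀ u v w, G.Adj u v → G.Adj u w → v = w) {b : ℝ} (hb : 1 ≤ b) (W : Finset V) :
    ∀ A : Option V → Option V → ℝ, Psd A → (∀ i j, 0 ≤ A i j) →
      (∀ u v : V, u ≠ v → ¬ G.Adj u v → A (some u) (some v) = 0) →
      (∀ v, v ∉ W → ∀ i, A (some v) i = 0) →
      ∀ x : Option V → ℝ, 0 ≤ ∑ i, ∑ j, x i * A i j ^ b * x j := by
  classical
  have hb0 : b ≠ 0 := by linarith
  induction W using Finset.strongInduction with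
  | H W ih =>
  intro A hA hA0 hAG hW x
  rcases W.eq_empty_or_nonempty with rfl | ⟨v, hv⟩
  · have h1 : ∀ v i, A (some v) i = 0 := fun v i => hW v (Finset.notMem_empty v) i
    refine Finset.sum_nonneg fun i _ => Finset.sum_nonneg fun j _ => ?_
    rcases i with _ | u
    · rcases j with _ | w
      · have := mul_nonneg (mul_self_nonneg (x none)) (Real.rpow_nonneg (hA0 none none) b)
        linarith
      · rw [hA.1, h1, Real.zero_rpow hb0, mul_zero, zero_mul]
    · rw [h1, Real.zero_rpow hb0, mul_zero, zero_mul]
  · set K : Finset V := Finset.univ.filter fun w => w = v ∨ G.Adj v w with hKdef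
    have hvK : v ∈ K := by
      rw [hKdef, Finset.mem_filter]
      exact ⟨Finset.mem_univ _, Or.inl rfl⟩
    have hKb : ∀ u ∈ K, ∀ w, w ∉ K → A (some u) (some w) = 0 := by
      intro u hu w hw
      rw [hKdef, Finset.mem_filter] at hu hw
      refine hAG u w ?_ ?_
      · rintro rfl
        exact hw hu
      · intro hadj
        rcases hu.2 with rfl | hvu
        · exact hw ⟨Finset.mem_univ _, Or.inr hadj⟩
        · have := hG u v w hvu.symm hadj
          exact hw ⟨Finset.mem_univ _, Or.inl this.symm⟩
    have hcard : K.card ≤ 2 := by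
      by_cases hex : ∃ w, G.Adj v w
      · obtain ⟨w, hw⟩ := hex
        have : K ⊆ {v, w} := by
          intro u hu
          rw [hKdef, Finset.mem_filter] at hu
          rw [Finset.mem_insert, Finset.mem_singleton]
          rcases hu.2 with h | h
          · exact Or.inl h
          · exact Or.inr (hG v u w h hw)
        exact (Finset.card_le_card this).trans Finset.card_le_two
      · have : K ⊆ {v} := by
          intro u hu
          rw [hKdef, Finset.mem_filter] at hu
          rw [Finset.mem_singleton]
          rcases hu.2 with h | h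
          · exact h
          · exact absurd ⟨u, h⟩ hex
        exact (Finset.card_le_card this).trans (by rw [Finset.card_singleton]; norm_num)
    obtain ⟨α, h0, h1, h2, h3⟩ := split hA K hKb
    refine le_trans (add_nonneg ?_ ?_) (pow_split hA0 hA.1 hKb hb h0 h1 x)
    · -- the blade
      have hP : Psd (comb A α (ind K)) := ⟨comb_symm hA.1 α _, h2⟩
      set T : Finset (Option V) := insert none (K.image some) with hT
      have hTc : T.card ≤ 3 := by
        refine (Finset.card_insert_le _ _).trans ?_
        have := Finset.card_image_le (s := K) (f := (some : V → Option V))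
        omega
      have hPT := psd_restrict hP T
      have hF := hFH 1 T (fun i j : T => comb A α (ind K) i j) b
        (by rw [Fintype.card_coe]; exact hTc) (by rw [Nat.cast_one]; exact hb)
        (fun i j => comb_nonneg hA0 h0 (ind_nonneg K) i j) hPT
      have hmem : ∀ u, some u ∉ T → u ∉ K := by
        intro u hu hK'
        exact hu (Finset.mem_insert_of_mem (Finset.mem_image_of_mem _ hK'))
      have hn : (none : Option V) ∈ T := Finset.mem_insert_self _ _
      refine psd_extend (M := fun i j => comb A α (ind K) i j ^ b) T hF ?_ ?_ x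
      · intro i j hi
        rcases i with _ | u
        · exact absurd hn hi
        · have hu := ind_neg (hmem u hi)
          rcases j with _ | w
          · show (ind K u * A (some u) none) ^ b = 0
            rw [hu, zero_mul, Real.zero_rpow hb0]
          · show (ind K u * A (some u) (some w) * ind K w) ^ b = 0
            rw [hu, zero_mul, zero_mul, Real.zero_rpow hb0]
      · intro i j hj
        rcases j with _ | w
        · exact absurd hn hj
        · have hu := ind_neg (hmem w hj)
          rcases i with _ | u
          · show (A none (some w) * ind K w) ^ b = 0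
            rw [hu, mul_zero, Real.zero_rpow hb0]
          · show (ind K u * A (some u) (some w) * ind K w) ^ b = 0
            rw [hu, mul_zero, Real.zero_rpow hb0]
    · -- the rest
      refine ih (W \ K) ?_ (comb A (A none none - α) (ind' K))
        ⟨comb_symm hA.1 _ _, h3⟩ (comb_nonneg hA0 (sub_nonneg.2 h1) (ind'_nonneg K)) ?_ ?_ x
      · refine Finset.ssubset_iff_subset_ne.2 ⟨Finset.sdiff_subset, fun h => ?_⟩
        have : v ∈ W \ K := by rw [h]; exact hv
        exact (Finset.mem_sdiff.1 this).2 hvK
      · intro u w huw hadj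
        show ind' K u * A (some u) (some w) * ind' K w = 0
        rw [hAG u w huw hadj, mul_zero, zero_mul]
      · intro u hu i
        have h4 : ind' K u = 0 ∨ ∀ i, A (some u) i = 0 := by
          by_cases huK : u ∈ K
          · left
            unfold ind'
            rw [ind_pos huK, sub_self]
          · right
            exact hW u fun h => hu (Finset.mem_sdiff.2 ⟨h, huK⟩)
        rcases i with _ | w
        · show ind' K u * A (some u) none = 0
          rcases h4 with h | h
          · rw [h, zero_mul]
          · rw [h, mul_zero]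
        · show ind' K u * A (some u) (some w) * ind' K w = 0
          rcases h4 with h | h
          · rw [h, zero_mul, zero_mul]
          · rw [h, mul_zero, zero_mul]

end Pool.Agent.E8helper79.CB

namespace E8h27.CB

theorem t_MATCH (hFH : S_FH) : S_MATCH := by
  intro V _ G hG A b hb hA hA0 hAG x
  exact Pool.Agent.E8helper79.CB.main hFH G hG hb Finset.univ A hA hA0 hAG
    (fun v hv => absurd (Finset.mem_univ v) hv) x

end E8h27.CB
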